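import Pool.Agent.R868.MEG.Main

set_option autoImplicit false

/-!
In every permutation graph the mandatory vertices form a monitoring edge-geodetic set, so their
number is the minimum size of such a set.
-/

namespace Pool.Agent.Results.MP_8e9d7b_co.PermutationGraphs

open Pool.Agent.R868.MEG

/-- The graph of a permutation `π` of `Fin n`: `i < j` are adjacent exactly when `π i > π j`. -/
def permGraph {n : ℕ} (π : Equiv.Perm (Fin n)) : SimpleGraph (Fin n) where
  Adj i j := (i < j ∧ π j < π i) ∨ (j < i ∧ π i < π j)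
  symm := ⟨fun _ _ h => h.symm⟩
  loopless := ⟨fun _ h => h.elim (fun h => lt_irrefl _ h.1) (fun h => lt_irrefl _ h.1)⟩

/-- `G` is isomorphic to the graph of a permutation. -/
def IsPermutationGraph {V : Type*} (G : SimpleGraph V) : Prop :=
  ∃ (n : ℕ) (π : Equiv.Perm (Fin n)), Nonempty (G ≃g permGraph π)

/-- The minimum size of a MEG set of `G`. -/
noncomputable def meg {V : Type*} (G : SimpleGraph V) : ℕ :=
  sInf {k | ∃ S : Set V, IsMEG G S ∧ S.ncard = k}

/-- Every permutation graph `G` satisfies `|Man(G)| = meg(G)`, and `Man(G)` is a MEG set. -/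
theorem result {V : Type*} [Finite V] (G : SimpleGraph V) (hG : IsPermutationGraph G) :
    (Man G).ncard = meg G ∧ IsMEG G (Man G) := by
  obtain ⟨n, π, ⟨φ⟩⟩ := hG
  have hrep : Rep G (fun v => ((φ v : Fin n) : ℤ)) (fun v => ((π (φ v) : Fin n) : ℤ)) := by
    refine ⟨fun x y hxy => ?_, fun x y hxy => ?_, fun u v => ?_⟩
    · apply φ.injective
      apply Fin.ext
      have : ((φ x : Fin n) : ℤ) = ((φ y : Fin n) : ℤ) := hxy
      exact_mod_cast this
    · apply φ.injective
      apply π.injective
      apply Fin.ext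
      have : ((π (φ x) : Fin n) : ℤ) = ((π (φ y) : Fin n) : ℤ) := hxy
      exact_mod_cast this
    · rw [← φ.map_adj_iff]
      show ((φ u < φ v ∧ π (φ v) < π (φ u)) ∨ (φ v < φ u ∧ π (φ u) < π (φ v))) ↔ _
      simp only [Fin.lt_def, Nat.cast_lt]
  have hman := man_isMEG hrep
  refine ⟨?_, hman⟩
  have hne : {k | ∃ S : Set V, IsMEG G S ∧ S.ncard = k}.Nonempty := ⟨_, Man G, hman, rfl⟩
  apply le_antisymm
  · refine le_csInf hne ?_
    rintro k ⟨S, hS, rfl⟩
    exact Set.ncard_le_ncard (fun v hv => hv S hS) (Set.toFinite _)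
  · exact Nat.sInf_le ⟨Man G, hman, rfl⟩

end Pool.Agent.Results.MP_8e9d7b_co.PermutationGraphs
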